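import Pool.Agent.Helper35.CL.Lit
import Pool.Agent.Helper60.CA.NdB
import Pool.Agent.Helper60.CA.Dm
import Pool.Agent.Helper83.NSA.St

/-!
# The corner of case A from a box

`corA_of`: a corner over two windows of a box, whose top coordinate is the top polynomial of the first window, is a
corner `CorA` as soon as it is a flat corner `CorH`.
-/

set_option autoImplicit false

namespace Pool.Agent.Helper35.CL

open Finset Filter Topology Pool.Agent.Helper69.RK Pool.Agent.Helper31.EC Pool.Agent.Helper31.EC.Sp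
open Pool.Agent.Helper3.LF Pool.Agent.Helper3.PR Pool.Agent.Helper89.LX
open Pool.Agent.Helper40.EL Pool.Agent.Helper60.CS Pool.Agent.Helper60.CA Pool.Agent.Helper98.FR
open Pool.Agent.Helper40.NSK Pool.Agent.Helper99.CC Pool.Agent.Helper99.LF Pool.Agent.Helper99.EC
open Pool.Agent.Helper11.TZ Pool.Agent.Helper47.T4 Pool.Agent.Helper47.CA Pool.Agent.Helper83.NSA

noncomputable section

variable {S : Sp} {s : Sys S 3} {q lam eta : ℕ → ℝ} {L : ℕ → Lab S} (b : Bx s q lam eta L)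

/-- the corner of `ndq` has the coordinates of the box -/
theorem mt_ndq {D : ℕ} {η : ℝ} (i0 i2 : ℕ) (N : NN) (h : q i2 = q i0 + N.e * N.s)
    {Q : ∀ k, (b.M.sp.F k).Ω → Mon 4 D → ℝ} (hQ : PF (S := b.M.sp) b.sy (b.bd.V i0) D (q i0) η Q) :
    Mt b.ld i2 N.e N.he (ndq b i0 i2 N h hQ).nd.cd.tr where
  t := (ndq b i0 i2 N h hQ).t_eq
  a0 := rfl
  a1 := rfl
  x0 := rfl
  x1 := rfl

theorem pt_eq (k : ℕ) (ω : (b.M.sp.F k).Ω) : pt b.bd k ω = ptf b.sy k ω := by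
  funext a
  fin_cases a <;> rfl

/-- a top polynomial over a finer base -/
theorem top_fin {U : Sp} {m D : ℕ} {s : Sys U m} {Z Z' : ∀ k, Setoid (U.F k).Ω} {c η : ℝ} {e : ℕ → Fin m → ℝ}
    {q : ∀ k, (U.F k).Ω → Mon (m + 1) D → ℝ} (h : Top s Z D c η e q) (hZ : ∀ k, Z' k ≤ Z k) : Top s Z' D c η e q := by
  refine ⟨?_, h.bd, h.der⟩
  filter_upwards [h.meas] with k hk ω ω' a b c d
  exact hk ω ω' a b (hZ k c) d

theorem map_xi : b.ld.L = b.sy.xi 1 := by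
  show (famPj b.M).map (s.a.dg 1 ⊔ s.x.dg 1) = _
  rw [Pj.map_sup, Pj.map_dg, Pj.map_dg]
  rfl

section

variable {D : ℕ} {η : ℝ} (i0 i2 : ℕ) (N : NN) (h : q i2 = q i0 + N.e * N.s)
    {Q : ∀ k, (b.M.sp.F k).Ω → Mon 4 D → ℝ} (hQ : PF (S := b.M.sp) b.sy (b.bd.V i0) D (q i0) η Q)

/-- the coefficients of the corner -/
theorem c_le (hη : η < 1) (hη1 : η + N.e ≤ 1) (j : Fin (D + 1)) :
    TR.dg ((ndq b i0 i2 N h hQ).nd.cd.tr.c j) 1 ≤ chgL (b.bd.V i2) N.e N.he b.ld.L := by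
  have hle : q i0 ≤ q i2 := by rw [h]; have := mul_nonneg N.he.le N.hs; linarith
  rw [map_xi]
  -- the digits of the coefficients of the window `c`
  have hg : gd (ndq b i0 i2 N h hQ).nd.cd.g (N.σ + N.v) ≤ chgL (b.bd.V i2) N.e N.he (b.sy.xi 1) := by
    have h1 : gd (ndq b i0 i2 N h hQ).nd.cd.g (N.σ + N.v) ≤ gd (ndq b i0 i2 N h hQ).nd.cd.g 1 := gd_mono _ N.h1
    refine h1.trans (gd_le.mpr fun i => ?_)
    exact (hQ.fin2 (box_fin2 b hle)).gco_dg ((box_cen b i0).fin2 (box_fin2 b hle)) (b.q0 i0) hη i N.e N.he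
      (by rw [mul_one]; exact hη1)
  have h2 := (ndq b i0 i2 N h hQ).nd.cd.b_le
  have h3 := (ndq b i0 i2 N h hQ).nd.cd.iF_le
  induction j using Fin.cases with
  | zero =>
    have e1 : TR.dg ((ndq b i0 i2 N h hQ).nd.cd.tr.c 0) 1 = QS.dg (fc (ndq b i0 i2 N h hQ).nd.cd.tr).b 1 :=
      (QS.dg_mk _ le_rfl).symm
    rw [e1]
    exact h2.trans hg
  | succ j =>
    have e1 : TR.dg ((ndq b i0 i2 N h hQ).nd.cd.tr.c j.succ) 1 = QS.dg ((fc (ndq b i0 i2 N h hQ).nd.cd.tr).C j) 1 :=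
      (QS.dg_mk _ le_rfl).symm
    rw [e1]
    refine (QS.dg_le_vd _ 1 j).trans (h3.trans ((gd_mono _ ?_).trans hg))
    show N.σ ≤ N.σ + N.v
    linarith [N.hv]

/-- the top coordinate of the corner -/
theorem mk_z (hsv : N.σ + N.v = 1) : QS.mk (ndq b i0 i2 N h hQ).nd.cd.tr.z =
    QS.mk (trc (b.bd.V i2) N.e N.he (ndq b i0 i2 N h hQ).ζ) := by
  have h1 := (ndq b i0 i2 N h hQ).nd.z_te
  have e0 : (1 : ℝ) - (ndq b i0 i2 N h hQ).nd.σ - (ndq b i0 i2 N h hQ).nd.v = 0 := by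
    show 1 - N.σ - N.v = 0
    linarith
  rw [e0] at h1
  have h2 : TR.Te (cs (ndq b i0 i2 N h hQ).nd.U 0 * trc (ndq b i0 i2 N h hQ).nd.Z' (ndq b i0 i2 N h hQ).nd.e
      (ndq b i0 i2 N h hQ).nd.he (ndq b i0 i2 N h hQ).nd.ζ) (trc (b.bd.V i2) N.e N.he (ndq b i0 i2 N h hQ).ζ) := by
    refine ⟨fun _ _ => True, Typ_true, Eventually.of_forall fun k ω _ _ => ?_⟩
    rw [TR.ev_mul, cs_ev le_rfl, dl_zero, one_mul]
    rfl
  exact QS.mk_eq.mpr ((h1.trans h2).ag 1)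

/-- the digits of the top coordinate -/
theorem z_le (hη : η < 1) (hη1 : η + N.e ≤ 1) (hsv : N.σ + N.v = 1) :
    TR.dg (ndq b i0 i2 N h hQ).nd.cd.tr.z 1 ≤ chgL (b.bd.V i2) N.e N.he (b.sy.P.dg 1 ⊔ b.sy.T) := by
  have hle : q i0 ≤ q i2 := by rw [h]; have := mul_nonneg N.he.le N.hs; linarith
  have e1 : TR.dg (ndq b i0 i2 N h hQ).nd.cd.tr.z 1 =
      TR.dg (trc (b.bd.V i2) N.e N.he (ndq b i0 i2 N h hQ).ζ) 1 := by
    have h1 : QS.dg (QS.mk (ndq b i0 i2 N h hQ).nd.cd.tr.z) 1 =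
      QS.dg (QS.mk (trc (b.bd.V i2) N.e N.he (ndq b i0 i2 N h hQ).ζ)) 1 :=
      congrArg (fun f => QS.dg f 1) (mk_z b i0 i2 N h hQ hsv)
    exact (QS.dg_mk _ le_rfl).symm.trans (h1.trans (QS.dg_mk _ le_rfl))
  rw [e1]
  exact (hQ.fin2 (box_fin2 b hle)).pt_dg hη N.e N.he (by rw [mul_one]; exact hη1)

/-- the value of the top coordinate -/
theorem z_lit (hsv : N.σ + N.v = 1) : ∃ K : ℕ → ℝ, b.M.sp.Sub K ∧ Typ (S := b.M.sp) (fun k ω =>
    |TR.ev (ndq b i0 i2 N h hQ).nd.cd.tr.z k ω - MvPolynomial.eval (ptf b.sy k ω) (pol (Q k ω))| ≤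
      K k * b.M.sp.dl N.e k) := by
  obtain ⟨K, hK, h1⟩ := typ_of_mk (mk_z b i0 i2 N h hQ hsv)
  refine ⟨K, hK, (h1.and (ct_typ hQ.pt_tame)).mono (Eventually.of_forall fun k ω _ hh => ?_)⟩
  have h2 : (ndq b i0 i2 N h hQ).ζ.1 k ω = MvPolynomial.eval (ptf b.sy k ω) (pol (Q k ω)) := hh.2
  rw [← h2]
  exact hh.1

end

theorem map_lB : (famPj b.M).map (lB s) = b.sy.P.dg 1 ⊔ b.sy.T := by
  unfold lB Sys.T
  rw [Pj.map_sup, Pj.map_dg, Pj.map_dg]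
  rfl

/-- **THE CORNER OF CASE A FROM A BOX** -/
theorem corA_of {D : ℕ} {η : ℝ} (i0 i2 : ℕ) (N : NN) (h : q i2 = q i0 + N.e * N.s) (hsv : N.σ + N.v = 1)
    {Q : ∀ k, (b.M.sp.F k).Ω → Mon 4 D → ℝ} (hT : Top b.sy (b.bd.V i0) D (q i0) η (fun _ => Pi.single 2 1) Q)
    (hη : η < 1) (hη1 : η + N.e ≤ 1) (hq1 : q i2 + N.e ≤ 1) (hl1 : lam i2 + N.e ≤ 1) {β : ℝ} (hβ : lam i2 ≤ β)
    {ρ ε : ℝ} (hc : CorH (fc (ndq b i0 i2 N h (top_pf hT)).nd.cd.tr) 2 ρ ε) :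
    Nonempty (CorA s 2 D (q i0) (q i2) η β N.e ρ ε) := by
  have hle : q i0 ≤ q i2 := by rw [h]; have := mul_nonneg N.he.le N.hs; linarith
  have M := mt_ndq b i0 i2 N h (top_pf hT)
  obtain ⟨K1, hK1, h1⟩ := M.lit
  obtain ⟨K2, hK2, h2⟩ := z_lit b i0 i2 N h (top_pf hT) hsv
  have hKs : b.M.sp.Sub (fun k => K1 k + K2 k) := hK1.add hK2
  refine ⟨{
    he := N.he
    l := b.M.lab i2
    hl := b.kap i2
    tr := (ndq b i0 i2 N h (top_pf hT)).nd.cd.tr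
    cor := hc
    hA := ?_
    hB := ?_
    q := Q
    top := top_fin hT fun k => b.nest i0 i2 hle k
    b0 := b0 b.bd i2
    b1 := b1 b.bd i2
    hb := b_lit b.bd i2
    bi := fun k ω j => b1_z b.bd i2 k ω j
    K := fun k => K1 k + K2 k
    hK := (sp_Sub (b.M.lab i2)).mp hKs
    lit := ?_ }⟩
  · refine (M.iA_le hq1 hl1 fun j => c_le b i0 i2 N h (top_pf hT) hη hη1 j).trans ?_
    exact chgL_mono _ _ _ (Pj.map_mono _ le_sup_left)
  · have e0 : (b.M.lab i2).pj.map (lB s) = b.sy.P.dg 1 ⊔ b.sy.T := map_lB b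
    rw [e0]
    refine M.iB_le hq1 hl1 ?_ (z_le b i0 i2 N h (top_pf hT) hη hη1 hsv)
    refine _root_.sup_le (_root_.sup_le ?_ ?_) ?_
    · have e1 : TR.dg b.bd.t 1 = b.sy.T := T_eq b.sy
      rw [e1]
      exact le_sup_right
    · exact (TR.cor_dg_le b.sy.P 0 1).trans le_sup_left
    · exact (TR.cor_dg_le b.sy.P 1 1).trans le_sup_left
  · refine (h1.and h2).mono ?_
    filter_upwards [hK1.1, hK2.1] with k k1 k2 ω _ hh
    obtain ⟨a1, a2⟩ := hh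
    have hd := S.dl_pos N.e k
    have hdl : b.M.sp.dl N.e k = S.dl N.e k := sp_dl (b.M.lab i2) N.e k
    rw [hdl] at a2
    have hp : (0 : ℝ) < 2 ^ (β * (S.F k).n) := by positivity
    refine ⟨a2.trans ?_, fun j => (a1 j).1.trans ?_, fun j => ?_, fun j a => ((a1 j).2.2 a).trans ?_⟩
    · exact mul_le_mul_of_nonneg_right (by linarith) hd.le
    · show K1 k ≤ K1 k + K2 k
      linarith
    · have h3 := (a1 j).2.1
      rw [pt_eq, hdl] at h3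
      refine h3.trans ?_
      exact mul_le_mul_of_nonneg_right (by linarith) hd.le
    · have h4 : (2 : ℝ) ^ (b.bd.lam i2 * (b.M.sp.F k).n) ≤ 2 ^ (β * (S.F k).n) := by
        have hn : (b.M.sp.F k).n = (S.F k).n := (b.M.lab i2 k).hn
        rw [hn]
        exact Real.rpow_le_rpow_of_exponent_le (by norm_num) (mul_le_mul_of_nonneg_right hβ (S.F k).pos.le)
      exact mul_le_mul (by linarith) h4 (by positivity) (by linarith)

end

end Pool.Agent.Helper35.CL
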