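import Pool.Agent.Helper98.FR.Ex
import Pool.Agent.Helper47.T4.Nest
import Pool.Agent.Helper60.CA.Dgq

/-!
# The literal part of the corner of case A

The base coordinates of the corner over the window `i` are, literally, affine forms of the point with coefficients which
are functions of the label and of size `2 ^ (lam i n)`, and do not use `z`.
-/

set_option autoImplicit false

namespace Pool.Agent.Helper35.CL

open Finset Filter Topology Pool.Agent.Helper69.RK Pool.Agent.Helper31.EC Pool.Agent.Helper31.EC.Sp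
open Pool.Agent.Helper82.TP Pool.Agent.Helper40.EL Pool.Agent.Helper60.CS Pool.Agent.Helper98.FR
open Pool.Agent.Helper40.NSK Pool.Agent.Helper99.CC Pool.Agent.Helper99.LF

noncomputable section

variable {S : Sp}

/-- what is known over a partition does not depend on the unit -/
theorem chgL_unit (Z : ∀ k, Setoid (S.F k).Ω) {e e' : ℝ} (he : 0 < e) (he' : 0 < e') {x y : S.L}
    (h : chgL Z e he x ≤ chgL Z e he y) : chgL Z e' he' x ≤ chgL Z e' he' y := by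
  induction x using cl_ind with | _ X
  induction y using cl_ind with | _ Y
  rw [chgL_cl, chgL_cl, cl_le, Inf.le_def] at h ⊢
  have h1 := (h.mul_const e).div_const e'
  rw [zero_mul, zero_div] at h1
  refine h1.congr fun k => ?_
  have e1 : (S.chg Z e he).rt (chgI Z e he X).1 (chgI Z e he Y).1 k = S.rt X.1 (fun k => Y.1 k ⊓ Z k) k / e :=
    chg_rt Z e he X.1 Y.1 k
  have e2 : (S.chg Z e' he').rt (chgI Z e' he' X).1 (chgI Z e' he' Y).1 k = S.rt X.1 (fun k => Y.1 k ⊓ Z k) k / e' :=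
    chg_rt Z e' he' X.1 Y.1 k
  rw [e1, e2]
  field_simp

theorem sub_of_chg' {Z : ∀ k, Setoid (S.F k).Ω} {e : ℝ} {he : 0 < e} {K : ℕ → ℝ} (hK : (S.chg Z e he).Sub K) :
    S.Sub K := by
  refine ⟨hK.1, ?_⟩
  have h1 := hK.2.const_mul e
  rw [mul_zero] at h1
  refine h1.congr fun k => ?_
  show e * (Real.logb 2 (K k + 2) / (e * (S.F k).n)) = Real.logb 2 (K k + 2) / (S.F k).n
  have := (S.F k).pos
  field_simp

/-- equal functions to full precision over a label of depth `e n` -/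
theorem typ_of_mk {Z : ∀ k, Setoid (S.F k).Ω} {e : ℝ} {he : 0 < e} {f g : TR (S.chg Z e he)} (h : QS.mk f = QS.mk g) :
    ∃ K : ℕ → ℝ, S.Sub K ∧ Typ (S := S) (fun k ω => |f.1 k ω - g.1 k ω| ≤ K k * S.dl e k) := by
  obtain ⟨E, K, hE, hK, hh⟩ := QS.mk_eq.mp h
  refine ⟨K, sub_of_chg' hK, ?_⟩
  have hE' : Typ (S := S) E := hE
  refine hE'.mono ?_
  filter_upwards [hh] with k hk ω a b
  have h1 := hk ω a b
  rw [chg_dl, mul_one] at h1
  exact h1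

section box

variable (B : BD S) (i : ℕ)

/-- constant terms of the affine forms -/
def b0 (k : ℕ) (ω : (S.F k).Ω) : Fin 3 → ℝ :=
  ![-(B.tc i).1 k ω / S.dl (B.q i) k, -(B.yc i).1 k ω / S.dl (B.q i) k, -(B.r i 0).1 k ω / S.dl (B.lam i) k]

/-- coefficients of the affine forms -/
def b1 (k : ℕ) (ω : (S.F k).Ω) : Fin 3 → Fin 4 → ℝ :=
  ![![1 / S.dl (B.q i) k, 0, 0, 0], ![0, 1 / S.dl (B.q i) k, 0, 0],
    ![-(B.r i 1).1 k ω / S.dl (B.lam i) k, -(B.r i 2).1 k ω / S.dl (B.lam i) k, 1 / S.dl (B.lam i) k, 0]]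

/-- the point -/
def pt (k : ℕ) (ω : (S.F k).Ω) : Fin 4 → ℝ := ![B.t.1 k ω, B.y.1 k ω, B.R.1 k ω, B.z.1 k ω]

theorem b_lit : ∀ᶠ k in UF, ∀ ω ω', (S.F k).μ ω ≠ 0 → (S.F k).μ ω' ≠ 0 → B.V i k ω ω' → (S.F k).Z ω ω' →
    b0 B i k ω = b0 B i k ω' ∧ b1 B i k ω = b1 B i k ω' := by
  filter_upwards [B.lt i, B.ly i, B.lr i 0, B.lr i 1, B.lr i 2] with k h1 h2 h3 h4 h5 ω ω' a b c d
  unfold b0 b1
  rw [h1 ω ω' a b c d, h2 ω ω' a b c d, h3 ω ω' a b c d, h4 ω ω' a b c d, h5 ω ω' a b c d]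
  exact ⟨rfl, rfl⟩

/-- the forms do not use `z` -/
theorem b1_z (k : ℕ) (ω : (S.F k).Ω) (j : Fin 3) : b1 B i k ω j 3 = 0 := by
  fin_cases j <;> rfl

/-- size of the coefficients -/
theorem b1_le : ∃ K : ℕ → ℝ, S.Sub K ∧ ∀ᶠ k in UF, ∀ ω, (S.F k).μ ω ≠ 0 → ∀ j a,
    |b1 B i k ω j a| ≤ K k * 2 ^ (B.lam i * (S.F k).n) := by
  obtain ⟨K1, hK1, h1⟩ := (B.r i 1).2
  obtain ⟨K2, hK2, h2⟩ := (B.r i 2).2
  refine ⟨fun k => K1 k + K2 k + 1, (hK1.add hK2).add (S.Sub_const zero_le_one), ?_⟩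
  filter_upwards [h1, h2, hK1.1, hK2.1] with k h1 h2 k1 k2 ω hω j a
  have e1 : 1 / S.dl (B.lam i) k = 2 ^ (B.lam i * (S.F k).n) := by
    unfold Sp.dl
    rw [Real.rpow_neg (by norm_num), one_div, inv_inv]
  have e2 : 1 / S.dl (B.q i) k ≤ 1 / S.dl (B.lam i) k :=
    one_div_le_one_div_of_le (S.dl_pos _ _) (S.dl_anti (B.qlam i) k)
  have e3 : 0 < 1 / S.dl (B.lam i) k := by
    have := S.dl_pos (B.lam i) k
    positivity
  have e4 : 0 < 1 / S.dl (B.q i) k := by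
    have := S.dl_pos (B.q i) k
    positivity
  rw [← e1]
  have key : ∀ x c : ℝ, |x| ≤ c → c ≤ K1 k + K2 k + 1 → |x / S.dl (B.lam i) k| ≤
      (K1 k + K2 k + 1) * (1 / S.dl (B.lam i) k) := by
    intro x c hx hc
    rw [div_eq_mul_one_div, abs_mul, abs_of_pos e3]
    exact mul_le_mul_of_nonneg_right (hx.trans hc) e3.le
  have k0 : |(0 : ℝ)| ≤ (K1 k + K2 k + 1) * (1 / S.dl (B.lam i) k) := by
    rw [abs_zero]
    exact mul_nonneg (by linarith) e3.le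
  have kq : |1 / S.dl (B.q i) k| ≤ (K1 k + K2 k + 1) * (1 / S.dl (B.lam i) k) := by
    rw [abs_of_pos e4]
    refine e2.trans ?_
    nlinarith
  have kl : |1 / S.dl (B.lam i) k| ≤ (K1 k + K2 k + 1) * (1 / S.dl (B.lam i) k) :=
    key 1 1 (by rw [abs_one]) (by linarith)
  have k1' : |-(B.r i 1).1 k ω / S.dl (B.lam i) k| ≤ (K1 k + K2 k + 1) * (1 / S.dl (B.lam i) k) :=
    key _ (K1 k) (by rw [abs_neg]; exact h1 ω hω) (by linarith)
  have k2' : |-(B.r i 2).1 k ω / S.dl (B.lam i) k| ≤ (K1 k + K2 k + 1) * (1 / S.dl (B.lam i) k) :=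
    key _ (K2 k) (by rw [abs_neg]; exact h2 ω hω) (by linarith)
  fin_cases j <;> fin_cases a
  · exact kq
  · exact k0
  · exact k0
  · exact k0
  · exact k0
  · exact kq
  · exact k0
  · exact k0
  · exact k1'
  · exact k2'
  · exact kl
  · exact k0

variable {i} {e : ℝ} {he : 0 < e}

/-- the base coordinates of the box -/
def gq (i : ℕ) (e : ℝ) (he : 0 < e) : Fin 3 → TR (B.Sj i e he) := ![B.tT i e he, B.yT i e he, B.RT i e he]

theorem gq_typ : Typ (S := S) (fun k ω => ∀ j : Fin 3, (gq B i e he j).1 k ω =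
    b0 B i k ω j + ∑ a : Fin 4, b1 B i k ω j a * pt B k ω a) := by
  have h1 := nf_typ (hr := B.q1 i) (hf := B.T_mem i) (Z := B.V i) (e := e) (he := he)
  have h2 := nf_typ (hr := B.q1 i) (hf := B.Y_mem i) (Z := B.V i) (e := e) (he := he)
  have h3 := nf_typ (hr := B.lam1 i) (hf := B.Rr_mem i) (Z := B.V i) (e := e) (he := he)
  refine ((h1.and h2).and h3).mono (Eventually.of_forall fun k ω _ hh => ?_)
  obtain ⟨⟨a1, a2⟩, a3⟩ := hh
  have a1' : B.t.1 k ω - (B.tc i).1 k ω = S.dl (B.q i) k * (B.tT i e he).1 k ω := a1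
  have a2' : B.y.1 k ω - (B.yc i).1 k ω = S.dl (B.q i) k * (B.yT i e he).1 k ω := a2
  have a3' : B.R.1 k ω - ((B.r i 0).1 k ω + (B.r i 1).1 k ω * B.t.1 k ω + (B.r i 2).1 k ω * B.y.1 k ω) =
    S.dl (B.lam i) k * (B.RT i e he).1 k ω := a3
  have dq := (S.dl_pos (B.q i) k).ne'
  have dlm := (S.dl_pos (B.lam i) k).ne'
  intro j
  rw [Fin.sum_univ_four]
  fin_cases j
  · show (B.tT i e he).1 k ω = -(B.tc i).1 k ω / S.dl (B.q i) k + (1 / S.dl (B.q i) k * B.t.1 k ω + 0 * B.y.1 k ω +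
      0 * B.R.1 k ω + 0 * B.z.1 k ω)
    field_simp
    linarith
  · show (B.yT i e he).1 k ω = -(B.yc i).1 k ω / S.dl (B.q i) k + (0 * B.t.1 k ω + 1 / S.dl (B.q i) k * B.y.1 k ω +
      0 * B.R.1 k ω + 0 * B.z.1 k ω)
    field_simp
    linarith
  · show (B.RT i e he).1 k ω = -(B.r i 0).1 k ω / S.dl (B.lam i) k + (-(B.r i 1).1 k ω / S.dl (B.lam i) k * B.t.1 k ω +
      -(B.r i 2).1 k ω / S.dl (B.lam i) k * B.y.1 k ω + 1 / S.dl (B.lam i) k * B.R.1 k ω + 0 * B.z.1 k ω)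
    field_simp
    linarith

variable {B} (D : LD B)

/-- the corner `tr` over the window `i`, of depth `e n`, has the coordinates of the box -/
structure Mt (i : ℕ) (e : ℝ) (he : 0 < e) {d : ℕ} (tr : FTC (B.Sj i e he) 2 d) : Prop where
  t : QS.mk tr.t = QS.mk (B.tT i e he)
  a0 : QS.mk (tr.a 0) = QS.mk (D.iyT i e he)
  a1 : QS.mk (tr.a 1) = QS.mk (D.irT i e he)
  x0 : QS.mk (tr.x 0) = QS.mk (D.xT i e he)
  x1 : QS.mk (tr.x 1) = QS.mk (D.vrT i e he)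

namespace Mt

variable {D} {d : ℕ} {tr : FTC (B.Sj i e he) 2 d} (M : Mt D i e he tr)

include M

/-- the base point of the corner -/
theorem q_eq (j : Fin 3) : QS.mk (tr.q j) = QS.mk (gq B i e he j) := by
  fin_cases j
  · exact M.t
  · show QS.mk (tr.a 0 + tr.t * tr.x 0) = QS.mk (B.yT i e he)
    rw [map_add, map_mul, M.t, M.a0, M.x0, D.yT_eq]
  · show QS.mk (tr.a 1 + tr.t * tr.x 1) = QS.mk (B.RT i e he)
    rw [map_add, map_mul, M.t, M.a1, M.x1, D.RT_eq]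

/-- **THE BASE COORDINATES ARE LITERALLY AFFINE FORMS OF THE POINT** -/
theorem lit : ∃ K : ℕ → ℝ, S.Sub K ∧ Typ (S := S) (fun k ω => ∀ j : Fin 3, |TR.ev (tr.q j) k ω| ≤ K k ∧
    |TR.ev (tr.q j) k ω - (b0 B i k ω j + ∑ a : Fin 4, b1 B i k ω j a * pt B k ω a)| ≤ K k * S.dl e k ∧
    ∀ a, |b1 B i k ω j a| ≤ K k * 2 ^ (B.lam i * (S.F k).n)) := by
  obtain ⟨K0, hK0, h0⟩ := b1_le B i
  choose K1 hK1 h1 using fun j => typ_of_mk (M.q_eq j)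
  choose K2 hK2 h2 using fun j : Fin 3 => (tr.q j).2
  have hK2' : ∀ j, S.Sub (K2 j) := fun j => sub_of_chg' (hK2 j)
  have s3 : ∀ K : Fin 3 → ℕ → ℝ, (∀ j, S.Sub (K j)) → S.Sub (fun k => K 0 k + K 1 k + K 2 k) := fun K hK =>
    ((hK 0).add (hK 1)).add (hK 2)
  refine ⟨fun k => K0 k + (K1 0 k + K1 1 k + K1 2 k) + (K2 0 k + K2 1 k + K2 2 k),
    (hK0.add (s3 K1 hK1)).add (s3 K2 hK2'), ?_⟩
  have hT := ((h1 0).and (h1 1)).and (h1 2)
  refine ((gq_typ B (i := i) (e := e) (he := he)).and hT).mono ?_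
  filter_upwards [h0, h2 0, h2 1, h2 2, hK0.1, (hK1 0).1, (hK1 1).1, (hK1 2).1, (hK2' 0).1, (hK2' 1).1, (hK2' 2).1]
    with k h0 a0 a1 a2 k0 k10 k11 k12 k20 k21 k22 ω hω hh j
  obtain ⟨g, ⟨b0', b1'⟩, b2'⟩ := hh
  have hd := S.dl_pos e k
  have c1 : |TR.ev (tr.q j) k ω| ≤ K2 0 k + K2 1 k + K2 2 k := by
    fin_cases j
    · exact (a0 ω hω).trans (by linarith)
    · exact (a1 ω hω).trans (by linarith)
    · exact (a2 ω hω).trans (by linarith)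
  have c2 : |TR.ev (tr.q j) k ω - (gq B i e he j).1 k ω| ≤ (K1 0 k + K1 1 k + K1 2 k) * S.dl e k := by
    fin_cases j
    · exact b0'.trans (mul_le_mul_of_nonneg_right (by linarith) hd.le)
    · exact b1'.trans (mul_le_mul_of_nonneg_right (by linarith) hd.le)
    · exact b2'.trans (mul_le_mul_of_nonneg_right (by linarith) hd.le)
  refine ⟨c1.trans (by linarith), ?_, fun a => ?_⟩
  · rw [← g j]
    exact c2.trans (mul_le_mul_of_nonneg_right (by linarith) hd.le)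
  · refine (h0 ω hω j a).trans (mul_le_mul_of_nonneg_right (by linarith) (by positivity))

/-- the line of the corner -/
theorem iL_le (h1 : B.q i + e ≤ 1) (h2 : B.lam i + e ≤ 1) : (fc tr).iL ≤ chgL (B.V i) e he D.L := by
  have kw : ∀ {f : TR S} {r : ℝ}, D.Kw i f → r ≤ 1 → chgL (B.V i) e he (TR.dg f r) ≤ chgL (B.V i) e he D.L :=
    fun h hr => chgL_unit (B.V i) one_pos he (h _ hr)
  unfold FC.iL
  apply _root_.sup_le
  · rw [QS.vd_le]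
    intro j
    fin_cases j
    · show QS.dg (QS.mk (tr.a 0)) 1 ≤ _
      rw [M.a0, QS.dg_mk _ le_rfl]
      show TR.dg (nf (B.V i) e he (D.iy i) (B.q i) (B.q1 i) (D.iy_mem i)) 1 ≤ _
      rw [nf_dg, mul_one]
      exact kw (D.kw_iy i) h1
    · show QS.dg (QS.mk (tr.a 1)) 1 ≤ _
      rw [M.a1, QS.dg_mk _ le_rfl]
      show TR.dg (nf (B.V i) e he (D.ir i) (B.lam i) (B.lam1 i) (D.ir_mem i)) 1 ≤ _
      rw [nf_dg, mul_one]
      exact kw (D.kw_ir i) h2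
  · rw [QS.vd_le]
    intro j
    fin_cases j
    · show QS.dg (QS.mk (tr.x 0)) 1 ≤ _
      rw [M.x0, QS.dg_mk _ le_rfl]
      show TR.dg (trc (B.V i) e he (D.x 0)) 1 ≤ _
      rw [trc_dg, mul_one]
      exact kw (D.kw_x i 0) (by linarith [B.q0 i])
    · show QS.dg (QS.mk (tr.x 1)) 1 ≤ _
      rw [M.x1, QS.dg_mk _ le_rfl]
      show TR.dg (nf (B.V i) e he (D.vr i) (B.lam i - B.q i) _ (D.vr_mem i)) 1 ≤ _
      rw [nf_dg, mul_one]
      exact kw (D.kw_vr i) (by linarith [B.q0 i])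

/-- the whole line -/
theorem iA_le (h1 : B.q i + e ≤ 1) (h2 : B.lam i + e ≤ 1)
    (hc : ∀ j, TR.dg (tr.c j) 1 ≤ chgL (B.V i) e he D.L) : (fc tr).iA ≤ chgL (B.V i) e he D.L := by
  unfold FC.iA
  refine _root_.sup_le (M.iL_le h1 h2) (_root_.sup_le ?_ ?_)
  · show QS.dg (QS.mk (tr.c 0)) 1 ≤ _
    rw [QS.dg_mk _ le_rfl]
    exact hc 0
  · unfold FC.iF
    rw [QS.vd_le]
    intro j
    show QS.dg (QS.mk (tr.c j.succ)) 1 ≤ _
    rw [QS.dg_mk _ le_rfl]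
    exact hc j.succ

/-- the point of the base -/
theorem iQ_le (h1 : B.q i + e ≤ 1) (h2 : B.lam i + e ≤ 1) :
    (fc tr).iQ ≤ chgL (B.V i) e he (TR.dg B.t 1 ⊔ TR.dg B.y 1 ⊔ TR.dg B.R 1) := by
  have ht : ∀ r ≤ (1 : ℝ), chgL (B.V i) e he (TR.dg B.t r) ≤
      chgL (B.V i) e he (TR.dg B.t 1 ⊔ TR.dg B.y 1 ⊔ TR.dg B.R 1) := fun r hr =>
    chgL_mono _ _ _ ((TR.dg_mono _ hr).trans (le_sup_left.trans le_sup_left))
  have hy : ∀ r ≤ (1 : ℝ), chgL (B.V i) e he (TR.dg B.y r) ≤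
      chgL (B.V i) e he (TR.dg B.t 1 ⊔ TR.dg B.y 1 ⊔ TR.dg B.R 1) := fun r hr =>
    chgL_mono _ _ _ ((TR.dg_mono _ hr).trans (le_sup_right.trans le_sup_left))
  have hR : ∀ r ≤ (1 : ℝ), chgL (B.V i) e he (TR.dg B.R r) ≤
      chgL (B.V i) e he (TR.dg B.t 1 ⊔ TR.dg B.y 1 ⊔ TR.dg B.R 1) := fun r hr =>
    chgL_mono _ _ _ ((TR.dg_mono _ hr).trans le_sup_right)
  have hl : ∀ (f : TR S), Lt (B.V i) f → ∀ r, chgL (B.V i) e he (TR.dg f r) ≤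
      chgL (B.V i) e he (TR.dg B.t 1 ⊔ TR.dg B.y 1 ⊔ TR.dg B.R 1) := fun f hf r => by
    rw [hf.chg_bot e he r]
    exact bot_le
  have had : ∀ (f g : TR S) (r : ℝ), chgL (B.V i) e he (TR.dg f r) ≤
      chgL (B.V i) e he (TR.dg B.t 1 ⊔ TR.dg B.y 1 ⊔ TR.dg B.R 1) → chgL (B.V i) e he (TR.dg g r) ≤
      chgL (B.V i) e he (TR.dg B.t 1 ⊔ TR.dg B.y 1 ⊔ TR.dg B.R 1) → chgL (B.V i) e he (TR.dg (f + g) r) ≤
      chgL (B.V i) e he (TR.dg B.t 1 ⊔ TR.dg B.y 1 ⊔ TR.dg B.R 1) := fun f g r hf hg =>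
    (chgL_mono _ _ _ (TR.add_dg_le f g r)).trans (by rw [chgL_sup]; exact _root_.sup_le hf hg)
  have hmu : ∀ (f g : TR S) (r : ℝ), chgL (B.V i) e he (TR.dg f r) ≤
      chgL (B.V i) e he (TR.dg B.t 1 ⊔ TR.dg B.y 1 ⊔ TR.dg B.R 1) → chgL (B.V i) e he (TR.dg g r) ≤
      chgL (B.V i) e he (TR.dg B.t 1 ⊔ TR.dg B.y 1 ⊔ TR.dg B.R 1) → chgL (B.V i) e he (TR.dg (f * g) r) ≤
      chgL (B.V i) e he (TR.dg B.t 1 ⊔ TR.dg B.y 1 ⊔ TR.dg B.R 1) := fun f g r hf hg =>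
    (chgL_mono _ _ _ (TR.mul_dg_le f g r)).trans (by rw [chgL_sup]; exact _root_.sup_le hf hg)
  have hsu : ∀ (f g : TR S) (r : ℝ), chgL (B.V i) e he (TR.dg f r) ≤
      chgL (B.V i) e he (TR.dg B.t 1 ⊔ TR.dg B.y 1 ⊔ TR.dg B.R 1) → chgL (B.V i) e he (TR.dg g r) ≤
      chgL (B.V i) e he (TR.dg B.t 1 ⊔ TR.dg B.y 1 ⊔ TR.dg B.R 1) → chgL (B.V i) e he (TR.dg (f - g) r) ≤
      chgL (B.V i) e he (TR.dg B.t 1 ⊔ TR.dg B.y 1 ⊔ TR.dg B.R 1) := fun f g r hf hg => by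
    rw [sub_eq_add_neg]
    exact had _ _ _ hf ((chgL_mono _ _ _ (TR.neg_dg_le g r)).trans hg)
  have key : ∀ j, QS.dg ((fc tr).q j) 1 ≤ chgL (B.V i) e he (TR.dg B.t 1 ⊔ TR.dg B.y 1 ⊔ TR.dg B.R 1) := by
    intro j
    rw [fc_q, M.q_eq, QS.dg_mk _ le_rfl]
    fin_cases j
    · show TR.dg (nf (B.V i) e he (B.t - B.tc i) (B.q i) (B.q1 i) (B.T_mem i)) 1 ≤ _
      rw [nf_dg, mul_one]
      exact hsu _ _ _ (ht _ h1) (hl _ (B.lt i) _)
    · show TR.dg (nf (B.V i) e he (B.y - B.yc i) (B.q i) (B.q1 i) (B.Y_mem i)) 1 ≤ _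
      rw [nf_dg, mul_one]
      exact hsu _ _ _ (hy _ h1) (hl _ (B.ly i) _)
    · show TR.dg (nf (B.V i) e he (B.Rr i) (B.lam i) (B.lam1 i) (B.Rr_mem i)) 1 ≤ _
      rw [nf_dg, mul_one]
      exact hsu _ _ _ (hR _ h2) (had _ _ _ (had _ _ _ (hl _ (B.lr i 0) _) (hmu _ _ _ (hl _ (B.lr i 1) _) (ht _ h2)))
        (hmu _ _ _ (hl _ (B.lr i 2) _) (hy _ h2)))
  unfold FC.iQ
  refine _root_.sup_le ?_ (key 0)
  rw [QS.vd_le]
  intro j
  exact key j.succ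

/-- the point -/
theorem iB_le (h1 : B.q i + e ≤ 1) (h2 : B.lam i + e ≤ 1) {L : S.L}
    (hL : TR.dg B.t 1 ⊔ TR.dg B.y 1 ⊔ TR.dg B.R 1 ≤ L) (hz : TR.dg tr.z 1 ≤ chgL (B.V i) e he L) :
    (fc tr).iB ≤ chgL (B.V i) e he L := by
  unfold FC.iB
  refine _root_.sup_le ((M.iQ_le h1 h2).trans (chgL_mono _ _ _ hL)) ?_
  rw [fc_z, QS.dg_mk _ le_rfl]
  exact hz

end Mt

end box

end

end Pool.Agent.Helper35.CL
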